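import Pool.Agent.Lib.MP_7c801b_nt.Core

/-!
The bound on `P` and `Q` when `x³ - Px² + Qx - 1` has a pair of nonreal roots.
-/

namespace Pool.Agent.Lib.MP_7c801b_nt

/-- The polynomial `x³ - Px² + Qx - 1` has the real root `ξ` and the two nonreal roots of
`x² - tx + p`. -/
def NRSd (P Q : ℤ) : Prop :=
  ∃ ξ t p : ℝ, 0 < ξ ∧ ξ * p = 1 ∧ (P:ℝ) = ξ + t ∧ (Q:ℝ) = ξ * t + p ∧ t ^ 2 < 4 * p

/-- The closure properties of the set of coordinate triples. -/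
structure Mod (P Q s : ℤ) (L : ℤ → ℤ → ℤ → Prop) : Prop where
  step : ∀ a b c, L a b c → L c (a - Q * c) (b + P * c)
  back : ∀ a b c, L a b c → L (b + Q * a) (c - P * a) a
  lin : ∀ k a b c a' b' c', L a b c → L a' b' c' → L (k * a + a') (k * b + b') (k * c + c')
  dvd : ∀ a, L a 0 0 → s ∣ a

theorem Mod.rev {P Q s : ℤ} {L : ℤ → ℤ → ℤ → Prop} (h : Mod P Q s L) :
    Mod Q P s (fun a b c => L c b a) where
  step a b c hL := h.back _ _ _ hL
  back a b c hL := h.step _ _ _ hL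
  lin k a b c a' b' c' h1 h2 := h.lin k _ _ _ _ _ _ h1 h2
  dvd a ha := by
    have h1 := h.back _ _ _ ha
    have h2 := h.back _ _ _ h1
    simp only [mul_zero, add_zero, sub_zero] at h2
    exact h.dvd _ h2

theorem Mod.sqrt {k s : ℤ} {L : ℤ → ℤ → ℤ → Prop} (h : Mod (k ^ 2) (-2 * k) s L) :
    Mod k 0 s (fun a b c => L (a - k * b) (c - k ^ 2 * b) b) where
  step a b c hL := by
    have h1 := h.back _ _ _ hL
    have h2 := h.lin k _ _ _ _ _ _ hL h1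
    convert h2 using 1 <;> ring
  back a b c hL := by
    have h1 := h.back _ _ _ hL
    have h2 := h.step _ _ _ hL
    have h3 := h.lin (-k ^ 2) _ _ _ _ _ _ hL h2
    have h4 := h.lin (-k) _ _ _ _ _ _ h1 h3
    convert h4 using 1 <;> ring
  lin l a b c a' b' c' h1 h2 := by
    have h3 := h.lin l _ _ _ _ _ _ h1 h2
    convert h3 using 1 <;> ring
  dvd a ha := by
    simp only [mul_zero, sub_zero] at ha
    exact h.dvd a ha

theorem half (P Q s : ℤ) (hs : 1 ≤ s) (L : ℤ → ℤ → ℤ → Prop) (hM : Mod P Q s L)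
    (a b c : ℤ) (hL : L a b c) (hN0 : nf P Q a b c ≠ 0) (hN : |nf P Q a b c| < s ^ 3)
    (ξ t p : ℝ) (hξ : 1 ≤ ξ) (hp : ξ * p = 1) (hP : (P:ℝ) = ξ + t) (hQ : (Q:ℝ) = ξ * t + p)
    (ht : t ^ 2 < 4 * p) : P < (2000 * s ^ 6) ^ 2 := by
  by_contra hB
  push Not at hB
  have hs6 : 1 ≤ s ^ 6 := one_le_pow₀ hs
  have hB1 : 2000 * s ^ 6 ≤ P := by nlinarith
  have hB2 : 2000 ≤ P := by linarith
  have hP' : (2000:ℝ) ≤ P := by exact_mod_cast hB2
  have hp0 : 0 < p := by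
    by_contra h
    push Not at h
    nlinarith
  have hp1 : p ≤ 1 := by nlinarith
  have ht2 : |t| ≤ 2 := abs_le_of_sq_le_sq (by nlinarith) (by norm_num)
  have hξ2 : 1998 ≤ ξ := by linarith [(abs_le.mp ht2).2]
  have hp2 : p ≤ 1 / 1998 := by nlinarith
  have ht3 : |t| ≤ 1 / 10 := abs_le_of_sq_le_sq (by nlinarith) (by norm_num)
  have hQ2 : (Q:ℝ) ^ 2 = ξ * (ξ * t ^ 2) + 2 * t + p ^ 2 := by
    rw [hQ]; linear_combination 2 * t * hp
  have hξt : ξ * t ^ 2 < 4 := by nlinarith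
  have hξt2 : ξ * (ξ * t ^ 2) < 4 * ξ := by nlinarith
  have hDr : 2 * t - p ^ 2 < 4 * (P:ℝ) - (Q:ℝ) ^ 2 := by
    rw [hQ2, hP]; linarith
  have hD0 : 0 ≤ 4 * P - Q ^ 2 := by
    have : (-1:ℝ) < 4 * (P:ℝ) - (Q:ℝ) ^ 2 := by
      have := (abs_le.mp ht3).1
      nlinarith
    have : -1 < 4 * P - Q ^ 2 := by exact_mod_cast this
    linarith
  rcases hD0.lt_or_eq with hD | hD
  · exact core P Q s hs hB1 hD L hM.step hM.back hM.dvd a b c hL hN0 hN
  · have hDr' : (4 * (P:ℝ) - (Q:ℝ) ^ 2) = 0 := by exact_mod_cast hD.symm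
    rw [hDr'] at hDr
    have hQ1 : Q < 1 := by
      have h1 : t < p ^ 2 / 2 := by linarith
      have h2 : (Q:ℝ) < 1 := by
        rw [hQ]
        have : ξ * t < ξ * (p ^ 2 / 2) := mul_lt_mul_of_pos_left h1 (by linarith)
        have e : ξ * (p ^ 2 / 2) = p / 2 := by linear_combination (p / 2) * hp
        linarith
      exact_mod_cast h2
    have hev : Even Q := by
      have : Even (Q ^ 2) := ⟨2 * P, by linarith⟩
      exact (Int.even_pow.mp this).1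
    obtain ⟨m, hm⟩ := hev
    obtain ⟨k, rfl⟩ : ∃ k, Q = -2 * k := ⟨-m, by rw [hm]; ring⟩
    have hPk : P = k ^ 2 := by nlinarith
    subst hPk
    have hk0 : 0 ≤ k := by omega
    have hk : 2000 * s ^ 6 ≤ k := by
      by_contra h
      push Not at h
      nlinarith
    have hT := hM.sqrt
    refine core k 0 s hs hk (by linarith [hs6]) _ hT.step hT.back hT.dvd
      (a + k * c) c (b + k ^ 2 * c) ?_ ?_ ?_
    · convert hL using 1 <;> ring
    · rw [← nf_sqrt]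
      rw [show a + k * c - k * c = a by ring, show b + k ^ 2 * c - k ^ 2 * c = b by ring]
      exact hN0
    · rw [← nf_sqrt]
      rw [show a + k * c - k * c = a by ring, show b + k ^ 2 * c - k ^ 2 * c = b by ring]
      exact hN

theorem half_abs (P Q s : ℤ) (hs : 1 ≤ s) (L : ℤ → ℤ → ℤ → Prop) (hM : Mod P Q s L)
    (a b c : ℤ) (hL : L a b c) (hN0 : nf P Q a b c ≠ 0) (hN : |nf P Q a b c| < s ^ 3)
    (ξ t p : ℝ) (hξ : 1 ≤ ξ) (hp : ξ * p = 1) (hP : (P:ℝ) = ξ + t) (hQ : (Q:ℝ) = ξ * t + p)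
    (ht : t ^ 2 < 4 * p) : |P| < (2000 * s ^ 6) ^ 2 ∧ |Q| < (2000 * s ^ 6) ^ 2 := by
  have h := half P Q s hs L hM a b c hL hN0 hN ξ t p hξ hp hP hQ ht
  have hs6 : 1 ≤ s ^ 6 := one_le_pow₀ hs
  have hB : 4000000 ≤ (2000 * s ^ 6) ^ 2 := by nlinarith
  set B := (2000 * s ^ 6) ^ 2 with hBd
  have hp0 : 0 < p := by
    by_contra h
    push Not at h
    nlinarith
  have hp1 : p ≤ 1 := by nlinarith
  have ht2 : |t| ≤ 2 := abs_le_of_sq_le_sq (by nlinarith) (by norm_num)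
  have ht2' := abs_le.mp ht2
  have hP1 : -1 ≤ P := by
    have : (-1:ℝ) ≤ P := by linarith
    exact_mod_cast this
  refine ⟨abs_lt.mpr ⟨by linarith, h⟩, ?_⟩
  have hB' : (4000000:ℝ) ≤ (B:ℝ) := by exact_mod_cast hB
  have hPB : (P:ℝ) < B := by exact_mod_cast h
  have hQ2 : (Q:ℝ) ^ 2 = ξ * (ξ * t ^ 2) + 2 * t + p ^ 2 := by
    rw [hQ]; linear_combination 2 * t * hp
  have hξt : ξ * t ^ 2 < 4 := by nlinarith
  have hξt2 : ξ * (ξ * t ^ 2) < 4 * ξ := by nlinarith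
  have h3 : |(Q:ℝ)| < B := by
    apply abs_lt_of_sq_lt_sq _ (by linarith)
    rw [hQ2]
    nlinarith
  exact_mod_cast h3

theorem bound (P Q s : ℤ) (hs : 1 ≤ s) (L : ℤ → ℤ → ℤ → Prop) (hM : Mod P Q s L)
    (a b c : ℤ) (hL : L a b c) (hN0 : nf P Q a b c ≠ 0) (hN : |nf P Q a b c| < s ^ 3)
    (hd : NRSd P Q) : |P| < (2000 * s ^ 6) ^ 2 ∧ |Q| < (2000 * s ^ 6) ^ 2 := by
  obtain ⟨ξ, t, p, hξ0, hp, hP, hQ, ht⟩ := hd
  rcases le_or_gt 1 ξ with hξ | hξ
  · exact half_abs P Q s hs L hM a b c hL hN0 hN ξ t p hξ hp hP hQ ht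
  · have hp0 : 0 < p := by
      by_contra h
      push Not at h
      nlinarith
    have hp1 : 1 ≤ p := by nlinarith
    have ht' : (t * ξ) ^ 2 < 4 * ξ := by
      have h1 := mul_lt_mul_of_pos_right ht (pow_pos hξ0 2)
      have h2 : 4 * p * ξ ^ 2 = 4 * ξ := by linear_combination 4 * ξ * hp
      rw [h2] at h1
      linarith
    have := half_abs Q P s hs _ hM.rev c b a hL (by rw [nf_rev]; exact hN0)
      (by rw [nf_rev]; exact hN) p (t * ξ) ξ hp1 (by linarith)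
      (by rw [hQ]; ring) (by rw [hP]; linear_combination (-t) * hp) ht'
    exact ⟨this.2, this.1⟩

end Pool.Agent.Lib.MP_7c801b_nt
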