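import Pool.Agent.Lib.MP_7c801b_nt.Static

/-!
The core theorem: a set of integer triples closed under multiplication by `ξ` and `ξ⁻¹` whose
elements `(a, 0, 0)` satisfy `s ∣ a` contains no triple of norm `N`, `0 < |N| < s³`, when
`P` is large against `s` and `4P - Q² ≥ 1`.
-/

namespace Pool.Agent.Lib.MP_7c801b_nt

theorem static (P Q s a b c : ℤ) (R t p : ℝ) (hp : R ^ 2 * p = 1)
    (hP : (P : ℝ) = R ^ 2 + t) (hQ : (Q : ℝ) = R ^ 2 * t + p) (hs : 1 ≤ s)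
    (hRs : 40 * (s : ℝ) ^ 3 ≤ R) (hD : 1 ≤ 4 * P - Q ^ 2)
    (h1 : s * R ^ 2 ≤ |(a : ℝ) + b * R ^ 2 + c * R ^ 4|)
    (h2 : |(a : ℝ) + b * R ^ 2 + c * R ^ 4| < s * R ^ 4)
    (hN : |nf P Q a b c| < s ^ 3) : a = 0 ∧ (b = 0 ∨ c = 0) := by
  have hs' : (1:ℝ) ≤ s := by exact_mod_cast hs
  have hD' : (1:ℝ) ≤ 4 * P - (Q:ℝ) ^ 2 := by exact_mod_cast hD
  obtain ⟨hR, hRs1, hp0, hp1, hy, hDD⟩ := static_aux hp hP hQ hs' hRs hD'
  have hR0 : 0 < R := by linarith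
  set y := R ^ 2 * t with hyd
  set u := (b:ℝ) + c * t with hud
  set W := 2 * a * R ^ 2 + y * u - 2 * c with hWd
  set α := (a : ℝ) + b * R ^ 2 + c * R ^ 4 with hαd
  have hN' : |nf (P:ℝ) Q a b c| < s ^ 3 := by
    rw [← nf_cast]; exact_mod_cast hN
  have hfac : 4 * R ^ 4 * nf (P:ℝ) Q a b c = α * (W ^ 2 + (4 * R ^ 2 - y ^ 2) * u ^ 2) := by
    have := nf_eq (R ^ 2) t p a b c hp
    rw [← hP, ← hQ] at this
    rw [hαd, hWd, hyd, hud]
    linear_combination this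
  set S := W ^ 2 + (4 * R ^ 2 - y ^ 2) * u ^ 2 with hSd
  have hm := mul_le_mul_of_nonneg_right hDD (sq_nonneg u)
  have hWS : W ^ 2 ≤ S := by
    have := sq_nonneg u
    rw [hSd]; linarith
  have huS : u ^ 2 / 2 ≤ S := by
    have := sq_nonneg W
    rw [hSd]; linarith
  have hS0 : 0 ≤ S := le_trans (sq_nonneg W) hWS
  have hXS : |α| * S < 4 * R ^ 4 * s ^ 3 := by
    have e : |α| * S = 4 * R ^ 4 * |nf (P:ℝ) Q a b c| := by
      calc |α| * S = |α| * |S| := by rw [abs_of_nonneg hS0]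
        _ = |4 * R ^ 4 * nf (P:ℝ) Q a b c| := by rw [← abs_mul, ← hfac]
        _ = 4 * R ^ 4 * |nf (P:ℝ) Q a b c| := by
          rw [abs_mul, abs_of_pos (by positivity : 0 < 4 * R ^ 4)]
    rw [e]
    exact mul_lt_mul_of_pos_left hN' (by positivity)
  have hS1 : S < 4 * R ^ 2 * s ^ 2 := by
    have h3 : s * R ^ 2 * S < s * R ^ 2 * (4 * R ^ 2 * s ^ 2) := by
      calc s * R ^ 2 * S ≤ |α| * S := mul_le_mul_of_nonneg_right h1 hS0
        _ < 4 * R ^ 4 * s ^ 3 := hXS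
        _ = s * R ^ 2 * (4 * R ^ 2 * s ^ 2) := by ring
    exact lt_of_mul_lt_mul_left h3 (by positivity)
  have hu : |u| < 3 * R * s := by
    apply abs_lt_of_sq_lt_sq _ (by positivity)
    have e : (3 * R * s) ^ 2 = 9 * (R ^ 2 * s ^ 2) := by ring
    have e2 : 0 < R ^ 2 * (s:ℝ) ^ 2 := by positivity
    rw [e]; linarith
  have hW : |W| < 2 * R * s := by
    apply abs_lt_of_sq_lt_sq _ (by positivity)
    have e : (2 * R * s) ^ 2 = 4 * R ^ 2 * s ^ 2 := by ring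
    rw [e]; linarith
  have hid : 2 * (c:ℝ) * (R ^ 6 - R ^ 2 * y + 1) = 2 * R ^ 2 * α - W - u * (2 * R ^ 4 - y) := by
    rw [hαd, hWd, hud, hyd]; ring
  have hc := c_bound hs' hR hy hid hu hW h2
  have ha0 : a = 0 := by
    have : |(a:ℝ)| < 1 := by
      rcases le_or_gt (16 * (s:ℝ) ^ 3 * R ^ 2) |α| with hX | hX
      · exact a_small_of_large hs' hR hRs1 hy hWS huS hWd hc hXS hX
      · have hc1 := c_small_of_small hs' hR hRs hRs1 hy hid hu hW hX.le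
        have hc0 : c = 0 := by
          have : |c| < 1 := by exact_mod_cast hc1
          exact Int.abs_lt_one_iff.mp this
        subst hc0
        refine a_small_of_c_zero hs' hR hRs hRs1 hy (b := (b:ℝ)) (W := W) (α := α) ?_ ?_ hW hX.le
        · rw [hWd, hud]; push_cast; ring
        · rw [hαd]; push_cast; ring
    have : |a| < 1 := by exact_mod_cast this
    exact Int.abs_lt_one_iff.mp this
  refine ⟨ha0, ?_⟩
  by_contra hbc
  push Not at hbc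
  subst ha0
  have hb1 : (1:ℝ) ≤ |(b:ℝ)| := by exact_mod_cast Int.one_le_abs hbc.1
  have hc1 : (1:ℝ) ≤ |(c:ℝ)| := by exact_mod_cast Int.one_le_abs hbc.2
  have hQb : |(Q:ℝ)| ≤ 2 * R + 2 := by
    rw [hQ]
    have := abs_add_le (R ^ 2 * t) p
    rw [abs_of_pos hp0] at this
    linarith
  refine bc_zero hs' hR hRs hRs1 hy hyd hP hQb hu hc hc1 hb1 ?_
  have e : nf (P:ℝ) Q ((0:ℤ):ℝ) b c = b ^ 3 + b ^ 2 * c * P + b * c ^ 2 * Q + c ^ 3 := by
    unfold nf; push_cast; ring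
  rw [← e]; exact hN'

theorem exists_root (P Q : ℤ) (hP : 2000 ≤ P) (hD : 1 ≤ 4 * P - Q ^ 2) :
    ∃ ξ t p : ℝ, (P:ℝ) - 1 ≤ ξ ∧ ξ * p = 1 ∧ (P:ℝ) = ξ + t ∧ (Q:ℝ) = ξ * t + p := by
  have hP' : (2000:ℝ) ≤ P := by exact_mod_cast hP
  have hQ : |Q| ≤ P - 1 := abs_le_of_sq_le_sq (by nlinarith) (by linarith)
  have hQ1 : -((P:ℝ) - 1) ≤ Q := by exact_mod_cast (abs_le.mp hQ).1
  have hQ2 : (Q:ℝ) ≤ P - 1 := by exact_mod_cast (abs_le.mp hQ).2
  set f : ℝ → ℝ := fun x => x ^ 3 - P * x ^ 2 + Q * x - 1 with hf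
  have hc : ContinuousOn f (Set.Icc ((P:ℝ) - 1) (P + 1)) := by
    apply Continuous.continuousOn
    fun_prop
  have h := intermediate_value_Icc (by linarith : (P:ℝ) - 1 ≤ P + 1) hc
  have h0 : (0:ℝ) ∈ Set.Icc (f (P - 1)) (f (P + 1)) := by
    constructor
    · simp only [hf]; nlinarith
    · simp only [hf]; nlinarith
  obtain ⟨ξ, hξ, hξ0⟩ := h h0
  simp only [hf] at hξ0
  refine ⟨ξ, P - ξ, Q - ξ * (P - ξ), hξ.1, ?_, by ring, by ring⟩
  linear_combination hξ0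

theorem core (P Q s : ℤ) (hs : 1 ≤ s) (hP : 2000 * s ^ 6 ≤ P) (hD : 1 ≤ 4 * P - Q ^ 2)
    (L : ℤ → ℤ → ℤ → Prop) (hstep : ∀ a b c, L a b c → L c (a - Q * c) (b + P * c))
    (hback : ∀ a b c, L a b c → L (b + Q * a) (c - P * a) a) (h0 : ∀ a, L a 0 0 → s ∣ a)
    (a b c : ℤ) (hL : L a b c) (hN0 : nf P Q a b c ≠ 0) (hN : |nf P Q a b c| < s ^ 3) :
    False := by
  have hs6 : 1 ≤ s ^ 6 := one_le_pow₀ hs
  obtain ⟨ξ, t, p, hξP, hξp, hPt, hQt⟩ := exists_root P Q (by linarith) hD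
  have hs' : (1:ℝ) ≤ s := by exact_mod_cast hs
  have hs6' : (1:ℝ) ≤ (s:ℝ) ^ 6 := one_le_pow₀ hs'
  have hP' : 2000 * (s:ℝ) ^ 6 ≤ P := by exact_mod_cast hP
  have hξ1 : 1600 * (s:ℝ) ^ 6 ≤ ξ := by linarith
  have hξ0 : 0 < ξ := by linarith
  have hξgt : 1 < ξ := by linarith
  set R := √ξ with hR
  have hR2 : R ^ 2 = ξ := Real.sq_sqrt hξ0.le
  have hRs : 40 * (s:ℝ) ^ 3 ≤ R := by
    apply Real.le_sqrt_of_sq_le
    calc (40 * (s:ℝ) ^ 3) ^ 2 = 1600 * (s:ℝ) ^ 6 := by ring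
      _ ≤ ξ := hξ1
  -- the orbit
  have orb : ∀ j : ℤ, ∃ a' b' c' : ℤ, L a' b' c' ∧ nf P Q a' b' c' = nf P Q a b c ∧
      (a' : ℝ) + b' * ξ + c' * ξ ^ 2 = ξ ^ j * (a + b * ξ + c * ξ ^ 2) := by
    intro j
    induction j using Int.induction_on with
    | zero => exact ⟨a, b, c, hL, rfl, by simp⟩
    | succ i ih =>
      obtain ⟨a', b', c', h1, h2, h3⟩ := ih
      refine ⟨c', a' - Q * c', b' + P * c', hstep _ _ _ h1, by rw [nf_step, h2], ?_⟩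
      rw [zpow_add_one₀ hξ0.ne', mul_right_comm, ← h3]
      push_cast
      rw [hPt, hQt]
      linear_combination (-(c':ℝ)) * hξp
    | pred i ih =>
      obtain ⟨a', b', c', h1, h2, h3⟩ := ih
      refine ⟨b' + Q * a', c' - P * a', a', hback _ _ _ h1, by rw [nf_back, h2], ?_⟩
      rw [zpow_sub_one₀ hξ0.ne', mul_right_comm, ← h3, eq_mul_inv_iff_mul_eq₀ hξ0.ne']
      push_cast
      rw [hPt, hQt]
      linear_combination (a':ℝ) * hξp
  have hα0 : (a : ℝ) + b * ξ + c * ξ ^ 2 ≠ 0 := by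
    intro h
    apply hN0
    have := nf_eq ξ t p a b c hξp
    rw [h, zero_mul, ← hPt, ← hQt, ← nf_cast] at this
    have h4 : (4 * ξ ^ 2) ≠ 0 := by positivity
    have := (mul_eq_zero.mp this).resolve_left h4
    exact_mod_cast this
  obtain ⟨n, hn1, hn2⟩ := exists_mem_Ico_zpow
    (x := |(a : ℝ) + b * ξ + c * ξ ^ 2| / s) (by positivity) hξgt
  obtain ⟨a', b', c', h1, h2, h3⟩ := orb (1 - n)
  rw [le_div_iff₀ (by linarith)] at hn1
  rw [div_lt_iff₀ (by linarith)] at hn2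
  have hz : 0 < ξ ^ (1 - n) := zpow_pos hξ0 _
  have e1 : ξ ^ (1 - n) * ξ ^ n = ξ := by
    rw [← zpow_add₀ hξ0.ne']; simp
  have e2 : ξ ^ (1 - n) * ξ ^ (n + 1) = ξ ^ 2 := by
    rw [← zpow_add₀ hξ0.ne', show 1 - n + (n + 1) = (2:ℤ) by ring]; rfl
  have hR4 : R ^ 4 = ξ ^ 2 := by rw [← hR2]; ring
  have g1 : s * R ^ 2 ≤ |(a' : ℝ) + b' * R ^ 2 + c' * R ^ 4| := by
    rw [hR4, hR2, h3, abs_mul, abs_of_pos hz]
    calc s * ξ = ξ ^ (1 - n) * (ξ ^ n * s) := by rw [← mul_assoc, e1, mul_comm]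
      _ ≤ _ := mul_le_mul_of_nonneg_left hn1 hz.le
  have g2 : |(a' : ℝ) + b' * R ^ 2 + c' * R ^ 4| < s * R ^ 4 := by
    rw [hR4, hR2, h3, abs_mul, abs_of_pos hz]
    calc _ < ξ ^ (1 - n) * (ξ ^ (n + 1) * s) := mul_lt_mul_of_pos_left hn2 hz
      _ = s * ξ ^ 2 := by rw [← mul_assoc, e2, mul_comm]
  obtain ⟨ha, hbc⟩ := static P Q s a' b' c' R t p (by rw [hR2]; exact hξp) (by rw [hR2]; exact hPt)
    (by rw [hR2]; exact hQt) hs hRs hD g1 g2 (by rw [h2]; exact hN)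
  subst ha
  have hdvd : ∃ d : ℤ, s ∣ d ∧ nf P Q a b c = d ^ 3 := by
    rcases hbc with hb | hc
    · subst hb
      refine ⟨c', ?_, ?_⟩
      · have q1 := hback _ _ _ h1
        have q2 := hback _ _ _ q1
        simp only [mul_zero, add_zero, sub_zero] at q2
        exact h0 _ q2
      · rw [← h2]; unfold nf; ring
    · subst hc
      refine ⟨b', ?_, ?_⟩
      · have q1 := hback _ _ _ h1
        simp only [mul_zero, add_zero, sub_zero] at q1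
        exact h0 _ q1
      · rw [← h2]; unfold nf; ring
  obtain ⟨d, hd, hd3⟩ := hdvd
  have hdne : d ≠ 0 := by
    rintro rfl
    apply hN0
    rw [hd3]; ring
  have h5 : s ≤ |d| := Int.le_of_dvd (abs_pos.mpr hdne) ((dvd_abs _ _).mpr hd)
  have h6 : s ^ 3 ≤ |d| ^ 3 := pow_le_pow_left₀ (by linarith) h5 3
  rw [hd3, abs_pow] at hN
  linarith

end Pool.Agent.Lib.MP_7c801b_nt
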