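import Mathlib

/-!
Definitions for MP_7c801b_nt: Hessenberg matrices in `SL(3, ℤ)`.
-/

namespace Pool.Agent.Lib.MP_7c801b_nt

/-- The matrix `H(m, n)` of the Hessenberg type `⟨a₁₁, a₂₁ | a₁₂, a₂₂, a₃₂⟩` built from the integers
`a₁₃, a₂₃, a₃₃`. -/
def H (a₁₁ a₂₁ a₁₂ a₂₂ a₃₂ a₁₃ a₂₃ a₃₃ m n : ℤ) : Matrix (Fin 3) (Fin 3) ℤ :=
  !![a₁₁, a₁₂, a₁₁ * m + a₁₂ * n + a₁₃;
     a₂₁, a₂₂, a₂₁ * m + a₂₂ * n + a₂₃;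
     0, a₃₂, a₃₂ * n + a₃₃]

/-- `M` is a perfect Hessenberg matrix in `SL(3, ℤ)`. -/
def IsPerfect (M : Matrix (Fin 3) (Fin 3) ℤ) : Prop :=
  M.det = 1 ∧ M 2 0 = 0 ∧ 0 ≤ M 0 0 ∧ M 0 0 < M 1 0 ∧ 0 ≤ M 0 1 ∧ M 0 1 < M 2 1 ∧
    0 ≤ M 1 1 ∧ M 1 1 < M 2 1

/-- The Hessenberg complexity `|a₂₁|² |a₃₂|`. -/
def complexity (M : Matrix (Fin 3) (Fin 3) ℤ) : ℤ := |M 1 0| ^ 2 * |M 2 1|

/-- `M` is `ς`-nonreduced: some `X ∈ GL(3, ℤ)` conjugates it to an integer Hessenberg matrix of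
smaller Hessenberg complexity. -/
def IsNonreduced (M : Matrix (Fin 3) (Fin 3) ℤ) : Prop :=
  ∃ (X : GL (Fin 3) ℤ) (M' : Matrix (Fin 3) (Fin 3) ℤ),
    M' = X * M * (X⁻¹ : GL (Fin 3) ℤ) ∧ M' 2 0 = 0 ∧ complexity M' < complexity M

/-- The characteristic polynomial of `M` is irreducible over `ℚ`. -/
def IsIrred (M : Matrix (Fin 3) (Fin 3) ℤ) : Prop :=
  Irreducible (M.charpoly.map (Int.castRingHom ℚ))

/-- `M` is an NRS matrix: its characteristic polynomial is irreducible over `ℚ` and has a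
nonreal root. -/
def IsNRS (M : Matrix (Fin 3) (Fin 3) ℤ) : Prop :=
  IsIrred M ∧ ∃ z : ℂ, z.im ≠ 0 ∧ (M.charpoly.map (Int.castRingHom ℂ)).eval z = 0

end Pool.Agent.Lib.MP_7c801b_nt
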