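import Pool.Agent.Lib.MP_7c801b_nt.Main

/-!
The two-parameter family `H(m, n)` of a Hessenberg type: the nonreduced NRS matrices are finite
in number, the NRS matrices are infinite in number.
-/

namespace Pool.Agent.Lib.MP_7c801b_nt

open Matrix Filter Topology

section
variable (a₁₁ a₂₁ a₁₂ a₂₂ a₃₂ a₁₃ a₂₃ a₃₃ : ℤ)

theorem det_H (m n : ℤ) : (H a₁₁ a₂₁ a₁₂ a₂₂ a₃₂ a₁₃ a₂₃ a₃₃ m n).det =
    (H a₁₁ a₂₁ a₁₂ a₂₂ a₃₂ a₁₃ a₂₃ a₃₃ 0 0).det := by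
  rw [det_fin_three, det_fin_three]
  simp [H]
  ring

theorem pp_H (m n : ℤ) : pp (H a₁₁ a₂₁ a₁₂ a₂₂ a₃₂ a₁₃ a₂₃ a₃₃ m n) =
    a₃₂ * n + (a₁₁ + a₂₂ + a₃₃) := by
  simp [pp, H]
  ring

theorem qq_H (m n : ℤ) : qq (H a₁₁ a₂₁ a₁₂ a₂₂ a₃₂ a₁₃ a₂₃ a₃₃ m n) =
    a₃₂ * (a₁₁ * n - a₂₁ * m) + (a₁₁ * a₂₂ - a₁₂ * a₂₁ + a₁₁ * a₃₃ + a₂₂ * a₃₃ - a₂₃ * a₃₂) := by
  simp [qq, H]
  ring

theorem finite_bounded (h2 : 0 < a₂₁) (h4 : 0 < a₃₂) (B : ℤ) :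
    {x : ℤ × ℤ | |pp (H a₁₁ a₂₁ a₁₂ a₂₂ a₃₂ a₁₃ a₂₃ a₃₃ x.1 x.2)| < B ∧
      |qq (H a₁₁ a₂₁ a₁₂ a₂₂ a₃₂ a₁₃ a₂₃ a₃₃ x.1 x.2)| < B}.Finite := by
  have hinj : Function.Injective (fun x : ℤ × ℤ =>
      (pp (H a₁₁ a₂₁ a₁₂ a₂₂ a₃₂ a₁₃ a₂₃ a₃₃ x.1 x.2),
        qq (H a₁₁ a₂₁ a₁₂ a₂₂ a₃₂ a₁₃ a₂₃ a₃₃ x.1 x.2))) := by
    rintro ⟨m, n⟩ ⟨m', n'⟩ h
    simp only [Prod.mk.injEq] at h
    obtain ⟨e1, e2⟩ := h
    rw [pp_H, pp_H] at e1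
    rw [qq_H, qq_H] at e2
    have hn : n = n' := mul_left_cancel₀ h4.ne' (by linarith)
    subst hn
    have e3 : a₃₂ * (a₁₁ * n - a₂₁ * m) = a₃₂ * (a₁₁ * n - a₂₁ * m') := by linarith
    have e4 := mul_left_cancel₀ h4.ne' e3
    have hm : m = m' := mul_left_cancel₀ h2.ne' (by linarith)
    rw [hm]
  have hfin : (Set.Ioo (-B) B ×ˢ Set.Ioo (-B) B : Set (ℤ × ℤ)).Finite :=
    (Set.finite_Ioo _ _).prod (Set.finite_Ioo _ _)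
  refine (hfin.preimage hinj.injOn).subset ?_
  rintro x ⟨hx1, hx2⟩
  exact ⟨abs_lt.mp hx1, abs_lt.mp hx2⟩

theorem finite_bad (h1 : 0 ≤ a₁₁) (h2 : a₁₁ < a₂₁) (h3 : 0 ≤ a₁₂) (h4 : a₁₂ < a₃₂)
    (hdet : (H a₁₁ a₂₁ a₁₂ a₂₂ a₃₂ a₁₃ a₂₃ a₃₃ 0 0).det = 1) :
    {x : ℤ × ℤ | IsNRS (H a₁₁ a₂₁ a₁₂ a₂₂ a₃₂ a₁₃ a₂₃ a₃₃ x.1 x.2) ∧
      IsNonreduced (H a₁₁ a₂₁ a₁₂ a₂₂ a₃₂ a₁₃ a₂₃ a₃₃ x.1 x.2)}.Finite := by
  refine (finite_bounded a₁₁ a₂₁ a₁₂ a₂₂ a₃₂ a₁₃ a₂₃ a₃₃ (by linarith) (by linarith)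
    ((2000 * (a₂₁ ^ 2 * a₃₂) ^ 6) ^ 2)).subset ?_
  rintro ⟨m, n⟩ ⟨hx1, hx2⟩
  exact nonred_bound _ (by rw [det_H]; exact hdet) rfl (lt_of_le_of_lt h1 h2)
    (lt_of_le_of_lt h3 h4) hx1 hx2

end

theorem finite_box (N : ℕ) (p : ℤ × ℤ → Prop) :
    {x : ℤ × ℤ | |x.1| ≤ N ∧ |x.2| ≤ N ∧ p x}.Finite := by
  refine ((Set.finite_Icc (-(N:ℤ)) N).prod (Set.finite_Icc (-(N:ℤ)) N)).subset ?_
  rintro x ⟨h1, h2, -⟩
  exact ⟨abs_le.mp h1, abs_le.mp h2⟩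

/-- If `bad` is finite and `good` infinite then the proportion of points of `good` outside `bad`
tends to one. -/
theorem ratio_tendsto (good bad : ℤ × ℤ → Prop) (hbad : {x | good x ∧ bad x}.Finite)
    (hgood : {x | good x}.Infinite) :
    Tendsto (fun N : ℕ => ({x : ℤ × ℤ | |x.1| ≤ N ∧ |x.2| ≤ N ∧ good x ∧ ¬ bad x}.ncard : ℝ) /
      {x : ℤ × ℤ | |x.1| ≤ N ∧ |x.2| ≤ N ∧ good x}.ncard) atTop (𝓝 1) := by
  set g : ℕ → ℕ := fun N => {x : ℤ × ℤ | |x.1| ≤ N ∧ |x.2| ≤ N ∧ good x}.ncard with hg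
  set K := {x | good x ∧ bad x}.ncard with hK
  have hgt : Tendsto (fun N => (g N : ℝ)) atTop atTop := by
    apply tendsto_natCast_atTop_atTop.comp
    apply tendsto_atTop_atTop_of_monotone
    · intro N N' hNN
      apply Set.ncard_le_ncard _ (finite_box N' _)
      rintro x ⟨h1, h2, h3⟩
      have : (N:ℤ) ≤ N' := by exact_mod_cast hNN
      exact ⟨h1.trans this, h2.trans this, h3⟩
    · intro b
      obtain ⟨t, ht, htb⟩ := hgood.exists_subset_card_eq b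
      refine ⟨t.sup (fun x => max x.1.natAbs x.2.natAbs), ?_⟩
      rw [← htb, ← Set.ncard_coe_finset]
      apply Set.ncard_le_ncard _ (finite_box _ _)
      intro x hx
      have h1 : max x.1.natAbs x.2.natAbs ≤ t.sup (fun x => max x.1.natAbs x.2.natAbs) :=
        Finset.le_sup (f := fun x : ℤ × ℤ => max x.1.natAbs x.2.natAbs) hx
      have h2 := (le_max_left _ _).trans h1
      have h3 := (le_max_right _ _).trans h1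
      refine ⟨?_, ?_, ht hx⟩
      · rw [Int.abs_eq_natAbs]; exact_mod_cast h2
      · rw [Int.abs_eq_natAbs]; exact_mod_cast h3
  have hsum : ∀ N : ℕ, (g N : ℝ) - K ≤
      ({x : ℤ × ℤ | |x.1| ≤ N ∧ |x.2| ≤ N ∧ good x ∧ ¬ bad x}.ncard : ℝ) := by
    intro N
    have h1 : {x : ℤ × ℤ | |x.1| ≤ N ∧ |x.2| ≤ N ∧ good x} ⊆
        {x : ℤ × ℤ | |x.1| ≤ N ∧ |x.2| ≤ N ∧ good x ∧ ¬ bad x} ∪ {x | good x ∧ bad x} := by
      rintro x ⟨h1, h2, h3⟩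
      by_cases hb : bad x
      · exact Or.inr ⟨h3, hb⟩
      · exact Or.inl ⟨h1, h2, h3, hb⟩
    have h2 := Set.ncard_le_ncard h1 ((finite_box N _).union hbad)
    have h3 := h2.trans (Set.ncard_union_le _ _)
    have h4 : (g N : ℝ) ≤ ({x : ℤ × ℤ | |x.1| ≤ N ∧ |x.2| ≤ N ∧ good x ∧ ¬ bad x}.ncard : ℝ) +
        K := by exact_mod_cast h3
    linarith
  have hle : ∀ N : ℕ, ({x : ℤ × ℤ | |x.1| ≤ N ∧ |x.2| ≤ N ∧ good x ∧ ¬ bad x}.ncard : ℝ) ≤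
      g N := by
    intro N
    have : {x : ℤ × ℤ | |x.1| ≤ N ∧ |x.2| ≤ N ∧ good x ∧ ¬ bad x} ⊆
        {x : ℤ × ℤ | |x.1| ≤ N ∧ |x.2| ≤ N ∧ good x} :=
      fun x hx => ⟨hx.1, hx.2.1, hx.2.2.1⟩
    exact_mod_cast Set.ncard_le_ncard this (finite_box N _)
  have hlow : Tendsto (fun N => 1 - (K:ℝ) / g N) atTop (𝓝 1) := by
    have : Tendsto (fun N => (K:ℝ) / g N) atTop (𝓝 0) := hgt.const_div_atTop _
    simpa using tendsto_const_nhds.sub this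
  refine tendsto_of_tendsto_of_tendsto_of_le_of_le' hlow tendsto_const_nhds ?_ ?_
  · filter_upwards [hgt.eventually_gt_atTop 0] with N hN
    rw [le_div_iff₀ hN, sub_mul, div_mul_cancel₀ _ hN.ne', one_mul]
    exact hsum N
  · filter_upwards [hgt.eventually_gt_atTop 0] with N hN
    rw [div_le_one hN]
    exact hle N

theorem isNRS_of (M : Matrix (Fin 3) (Fin 3) ℤ) (hM : M.det = 1) (hP : 2000 ≤ pp M)
    (hD : 1 ≤ 4 * pp M - qq M ^ 2) : IsNRS M := by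
  have hQ : |qq M| ≤ pp M - 1 := abs_le_of_sq_le_sq (by nlinarith) (by linarith)
  obtain ⟨hQ1, hQ2⟩ := abs_le.mp hQ
  have hev : ∀ r : ℤ, M.charpoly.eval r = r ^ 3 - pp M * r ^ 2 + qq M * r - 1 := by
    intro r
    have := eval_charpoly (RingHom.id ℤ) M hM r
    rwa [Polynomial.map_id] at this
  refine ⟨?_, ?_⟩
  · unfold IsIrred
    have hmon : M.charpoly.Monic := Matrix.charpoly_monic M
    have hdeg : M.charpoly.natDegree = 3 := by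
      rw [Matrix.charpoly_natDegree_eq_dim]; rfl
    have h1 : Irreducible M.charpoly := by
      rw [hmon.irreducible_iff_roots_eq_zero_of_degree_le_three (by omega) (by omega)]
      rw [Multiset.eq_zero_iff_forall_notMem]
      intro r hr
      have hr0 := Polynomial.isRoot_of_mem_roots hr
      rw [Polynomial.IsRoot, hev] at hr0
      have hu : r * (r ^ 2 - pp M * r + qq M) = 1 := by linear_combination hr0
      rcases Int.isUnit_iff.mp (IsUnit.of_mul_eq_one _ hu) with h | h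
      · subst h; linarith
      · subst h; linarith
    have h2 := (hmon.irreducible_iff_irreducible_map_fraction_map (K := ℚ)).mp h1
    exact h2
  · obtain ⟨ξ, t, p, hξP, hξp, hPt, hQt⟩ := exists_root (pp M) (qq M) hP hD
    have hP' : (2000:ℝ) ≤ pp M := by exact_mod_cast hP
    have hD' : (1:ℝ) ≤ 4 * (pp M : ℝ) - (qq M : ℝ) ^ 2 := by exact_mod_cast hD
    have hξ : 1600 ≤ ξ := by linarith
    have hR2 : √ξ ^ 2 = ξ := Real.sq_sqrt (by linarith)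
    have hR : 40 ≤ √ξ := Real.le_sqrt_of_sq_le (by linarith)
    have haux := static_aux (R := √ξ) (t := t) (p := p) (s := 1) (P := (pp M : ℝ))
      (Q := (qq M : ℝ)) (by rw [hR2]; exact hξp) (by rw [hR2]; exact hPt)
      (by rw [hR2]; exact hQt) le_rfl (by linarith) hD'
    obtain ⟨-, -, hp0, -, -, hpos⟩ := haux
    rw [hR2] at hpos
    have hpos2 : 0 < 4 * p - t ^ 2 := by
      have e : (4 * p - t ^ 2) * ξ ^ 2 = 4 * ξ - (ξ * t) ^ 2 := by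
        linear_combination 4 * ξ * hξp
      by_contra h
      push Not at h
      have : (4 * p - t ^ 2) * ξ ^ 2 ≤ 0 := mul_nonpos_of_nonpos_of_nonneg h (by positivity)
      linarith
    have hy := Real.sq_sqrt hpos2.le
    set y := √(4 * p - t ^ 2) with hyd
    refine ⟨⟨t / 2, y / 2⟩, ?_, ?_⟩
    · show y / 2 ≠ 0
      have : 0 < y := Real.sqrt_pos.mpr hpos2
      positivity
    · rw [eval_charpoly _ M hM]
      simp only [eq_intCast]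
      have hz : (⟨t / 2, y / 2⟩ : ℂ) ^ 2 - t * ⟨t / 2, y / 2⟩ + p = 0 := by
        apply Complex.ext
        · simp [pow_two]
          nlinarith
        · simp [pow_two]
          ring
      have c1 : ((pp M : ℤ) : ℂ) = (ξ : ℂ) + t := by exact_mod_cast congrArg (fun x : ℝ => (x : ℂ)) hPt
      have c2 : ((qq M : ℤ) : ℂ) = (ξ : ℂ) * t + p := by
        exact_mod_cast congrArg (fun x : ℝ => (x : ℂ)) hQt
      have c3 : (ξ : ℂ) * p = 1 := by exact_mod_cast congrArg (fun x : ℝ => (x : ℂ)) hξp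
      rw [c1, c2]
      linear_combination ((⟨t / 2, y / 2⟩ : ℂ) - ξ) * hz + c3

theorem infinite_NRS (a₁₁ a₂₁ a₁₂ a₂₂ a₃₂ a₁₃ a₂₃ a₃₃ : ℤ) (h2 : 0 < a₂₁) (h4 : 0 < a₃₂)
    (hdet : (H a₁₁ a₂₁ a₁₂ a₂₂ a₃₂ a₁₃ a₂₃ a₃₃ 0 0).det = 1) :
    {x : ℤ × ℤ | IsNRS (H a₁₁ a₂₁ a₁₂ a₂₂ a₃₂ a₁₃ a₂₃ a₃₃ x.1 x.2)}.Infinite := by
  set P₀ := a₁₁ + a₂₂ + a₃₃ with hP₀
  set Q₀ := a₁₁ * a₂₂ - a₁₂ * a₂₁ + a₁₁ * a₃₃ + a₂₂ * a₃₃ - a₂₃ * a₃₂ with hQ₀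
  set f : ℕ → ℤ × ℤ := fun t => (a₁₁ * ((t:ℤ) + 2000 + |P₀| + Q₀ ^ 2),
    a₂₁ * ((t:ℤ) + 2000 + |P₀| + Q₀ ^ 2)) with hf
  have hinj : Function.Injective f := by
    intro t t' h
    simp only [hf, Prod.mk.injEq] at h
    have := mul_left_cancel₀ h2.ne' h.2
    have : (t:ℤ) = t' := by linarith
    exact_mod_cast this
  apply Set.infinite_of_injective_forall_mem hinj
  intro t
  have hT : 0 ≤ (t:ℤ) + 2000 + |P₀| + Q₀ ^ 2 := by positivity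
  set T := (t:ℤ) + 2000 + |P₀| + Q₀ ^ 2 with hTd
  have hTge : 2000 + |P₀| + Q₀ ^ 2 ≤ T := by
    have : (0:ℤ) ≤ t := by positivity
    linarith
  have ha : 1 ≤ a₃₂ * a₂₁ := by nlinarith
  have hPP : T ≤ a₃₂ * (a₂₁ * T) := by nlinarith
  have hP0 := neg_abs_le P₀
  have hQn : 0 ≤ Q₀ ^ 2 := sq_nonneg _
  show IsNRS (H a₁₁ a₂₁ a₁₂ a₂₂ a₃₂ a₁₃ a₂₃ a₃₃ (a₁₁ * T) (a₂₁ * T))
  apply isNRS_of
  · rw [det_H]; exact hdet
  · rw [pp_H]; linarith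
  · rw [pp_H, qq_H]
    have e : a₃₂ * (a₁₁ * (a₂₁ * T) - a₂₁ * (a₁₁ * T)) + (a₁₁ * a₂₂ - a₁₂ * a₂₁ + a₁₁ * a₃₃ +
        a₂₂ * a₃₃ - a₂₃ * a₃₂) = Q₀ := by rw [hQ₀]; ring
    rw [e]
    linarith

end Pool.Agent.Lib.MP_7c801b_nt
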