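import Pool.Agent.Lib.MP_7c801b_nt.Mat

/-!
NRS matrices which are `ς`-nonreduced have bounded trace and bounded second coefficient.
-/

namespace Pool.Agent.Lib.MP_7c801b_nt

open Matrix

theorem nrsd_of_root (M : Matrix (Fin 3) (Fin 3) ℤ) (hM : M.det = 1) (z : ℂ) (hz : z.im ≠ 0)
    (h : (M.charpoly.map (Int.castRingHom ℂ)).eval z = 0) : NRSd (pp M) (qq M) := by
  rw [eval_charpoly _ M hM] at h
  simp only [eq_intCast] at h
  obtain ⟨x, y⟩ := z
  simp only at hz
  have hre := congrArg Complex.re h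
  have him := congrArg Complex.im h
  simp only [Complex.sub_re, Complex.add_re, Complex.mul_re, pow_succ, pow_zero, one_mul,
    Complex.mul_im, Complex.intCast_re, Complex.intCast_im, Complex.one_re, Complex.zero_re,
    Complex.sub_im, Complex.add_im, Complex.one_im, Complex.zero_im] at hre him
  set P : ℝ := (pp M : ℝ)
  set Q : ℝ := (qq M : ℝ)
  have him' : y * (3 * x ^ 2 - y ^ 2 - 2 * P * x + Q) = 0 := by linear_combination him
  have hQ : 3 * x ^ 2 - y ^ 2 - 2 * P * x + Q = 0 := (mul_eq_zero.mp him').resolve_left hz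
  have hp : 0 < x ^ 2 + y ^ 2 := by positivity
  have h1 : (P - 2 * x) * (x ^ 2 + y ^ 2) = 1 := by
    linear_combination hre - x * hQ
  refine ⟨P - 2 * x, 2 * x, x ^ 2 + y ^ 2, ?_, h1, by ring, by linear_combination hQ, ?_⟩
  · by_contra h2
    push Not at h2
    nlinarith
  · have : 0 < y ^ 2 := by positivity
    nlinarith

/-- The characteristic polynomial of a matrix with irreducible characteristic polynomial has no
integer root. -/
theorem no_int_root (M : Matrix (Fin 3) (Fin 3) ℤ) (hirr : IsIrred M) (r : ℤ) :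
    M.charpoly.eval r ≠ 0 := by
  intro h
  have h1 : (M.charpoly.map (Int.castRingHom ℚ)).IsRoot (r : ℚ) := by
    rw [Polynomial.IsRoot, Polynomial.eval_intCast_map]
    simp [h]
  have h2 := Polynomial.degree_eq_one_of_irreducible_of_root hirr h1
  have h3 : (M.charpoly.map (Int.castRingHom ℚ)).degree = 3 := by
    rw [Polynomial.degree_map_eq_of_injective (RingHom.injective_int _), Matrix.charpoly_degree_eq_dim]
    rfl
  rw [h3] at h2
  norm_num at h2

theorem complexity_ne (M : Matrix (Fin 3) (Fin 3) ℤ) (hirr : IsIrred M) (h : M 2 0 = 0) :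
    complexity M ≠ 0 := by
  intro h0
  unfold complexity at h0
  rcases mul_eq_zero.mp h0 with h1 | h1
  · have h2 : M 1 0 = 0 := abs_eq_zero.mp (pow_eq_zero_iff (two_ne_zero) |>.mp h1)
    apply no_int_root M hirr (M 0 0)
    rw [Matrix.eval_charpoly, det_fin_three]
    simp only [Matrix.sub_apply, Matrix.scalar_apply, Matrix.diagonal_apply, h, h2]
    simp
  · have h2 : M 2 1 = 0 := abs_eq_zero.mp h1
    apply no_int_root M hirr (M 2 2)
    rw [Matrix.eval_charpoly, det_fin_three]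
    simp only [Matrix.sub_apply, Matrix.scalar_apply, Matrix.diagonal_apply, h, h2]
    simp

theorem isIrred_conj (M : Matrix (Fin 3) (Fin 3) ℤ) (X : GL (Fin 3) ℤ) (hirr : IsIrred M) :
    IsIrred ((X : Matrix (Fin 3) (Fin 3) ℤ) * M * ((X⁻¹ : GL (Fin 3) ℤ) : Matrix (Fin 3) (Fin 3) ℤ)) := by
  unfold IsIrred at hirr ⊢
  rwa [Matrix.coe_units_inv, Matrix.charpoly_units_conj X M]

theorem nonred_bound (M : Matrix (Fin 3) (Fin 3) ℤ) (hdet : M.det = 1) (h20 : M 2 0 = 0)
    (h10 : 0 < M 1 0) (h21 : 0 < M 2 1) (hN : IsNRS M) (hn : IsNonreduced M) :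
    |pp M| < (2000 * (M 1 0 ^ 2 * M 2 1) ^ 6) ^ 2 ∧
      |qq M| < (2000 * (M 1 0 ^ 2 * M 2 1) ^ 6) ^ 2 := by
  obtain ⟨hirr, z, hz, hz0⟩ := hN
  obtain ⟨X, M', hM', h20', hc⟩ := hn
  have hirr' : IsIrred M' := by rw [hM']; exact isIrred_conj M X hirr
  have hc0 := complexity_ne M' hirr' h20'
  set Xm : Matrix (Fin 3) (Fin 3) ℤ := (X : Matrix (Fin 3) (Fin 3) ℤ) with hXm
  set Ym : Matrix (Fin 3) (Fin 3) ℤ := ((X⁻¹ : GL (Fin 3) ℤ) : Matrix (Fin 3) (Fin 3) ℤ) with hYm
  have hXY : Xm * Ym = 1 := by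
    rw [hXm, hYm, ← Units.val_mul, mul_inv_cancel, Units.val_one]
  have hYX : Ym * Xm = 1 := by
    rw [hXm, hYm, ← Units.val_mul, inv_mul_cancel, Units.val_one]
  set v := Ym *ᵥ e₁ with hv
  have hXv : Xm *ᵥ v = e₁ := by rw [hv, mulVec_mulVec, hXY, one_mulVec]
  have hconj : M' * Xm = Xm * M := by
    rw [hM', mul_assoc, hYX, mul_one]
  have hF := F_conj M M' Xm hconj v
  rw [hXv, F_e M' h20'] at hF
  have hdX : |Xm.det| = 1 := by
    have : IsUnit Xm.det := (Matrix.isUnit_iff_isUnit_det _).mp ⟨X, rfl⟩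
    exact Int.isUnit_iff_abs_eq.mp this
  have hFabs : |F M v| = complexity M' := by
    have := congrArg abs hF
    rw [abs_mul, abs_mul, hdX, mul_one, abs_pow] at this
    rw [← this]; rfl
  set s := M 1 0 ^ 2 * M 2 1 with hs
  have hs0 : 0 < s := by positivity
  have hcM : complexity M = s := by
    unfold complexity
    rw [abs_of_pos h10, abs_of_pos h21]
  have hFe : F M e₁ = s := F_e M h20
  obtain ⟨a, b, c, habc⟩ := exists_coord M v
  rw [hFe] at habc
  have hL : LL M s a b c := ⟨v, habc⟩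
  have hnf : nf (pp M) (qq M) a b c = s ^ 2 * F M v := by
    have h1 := F_comb M hdet a b c (s • v) (fun i => by
      rw [Pi.smul_apply, smul_eq_mul]; exact habc i)
    rw [F_smul, hFe] at h1
    have h2 : s * (s ^ 2 * F M v) = s * nf (pp M) (qq M) a b c := by linear_combination h1
    exact (mul_left_cancel₀ hs0.ne' h2).symm
  have hne : F M v ≠ 0 := by
    intro h
    rw [h, abs_zero] at hFabs
    exact hc0 hFabs.symm
  refine bound (pp M) (qq M) s (by linarith) (LL M s) (mod_LL M hdet s) a b c hL ?_ ?_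
    (nrsd_of_root M hdet z hz hz0)
  · rw [hnf]
    exact mul_ne_zero (by positivity) hne
  · rw [hnf, abs_mul, abs_of_pos (by positivity : 0 < s ^ 2), hFabs]
    rw [hcM] at hc
    calc s ^ 2 * complexity M' < s ^ 2 * s := mul_lt_mul_of_pos_left hc (by positivity)
      _ = s ^ 3 := by ring

end Pool.Agent.Lib.MP_7c801b_nt
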