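import Pool.Agent.Lib.MP_7c801b_nt.Defs
import Pool.Agent.Lib.MP_7c801b_nt.Bound

/-!
The matrix side: `ς`-nonreduced matrices give small values of the norm form.
-/

namespace Pool.Agent.Lib.MP_7c801b_nt

open Matrix

/-- Second coefficient of the characteristic polynomial. -/
def qq (M : Matrix (Fin 3) (Fin 3) ℤ) : ℤ :=
  M 0 0 * M 1 1 - M 0 1 * M 1 0 + (M 0 0 * M 2 2 - M 0 2 * M 2 0) +
    (M 1 1 * M 2 2 - M 1 2 * M 2 1)

/-- The trace. -/
def pp (M : Matrix (Fin 3) (Fin 3) ℤ) : ℤ := M 0 0 + M 1 1 + M 2 2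

theorem eval_charpoly {R : Type*} [CommRing R] (f : ℤ →+* R) (M : Matrix (Fin 3) (Fin 3) ℤ)
    (hM : M.det = 1) (z : R) :
    (M.charpoly.map f).eval z = z ^ 3 - f (pp M) * z ^ 2 + f (qq M) * z - 1 := by
  have h1 : f M.det = 1 := by rw [hM, map_one]
  rw [det_fin_three] at h1
  rw [← Matrix.charpoly_map, Matrix.eval_charpoly, det_fin_three]
  simp only [Matrix.sub_apply, Matrix.scalar_apply, Matrix.diagonal_apply, Matrix.map_apply,
    pp, qq]
  simp only [map_add, map_mul, map_sub, eq_intCast] at h1 ⊢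
  simp
  linear_combination (-1 : R) * h1

/-- The cubic form `det (v, Mv, M²v)`. -/
def F (M : Matrix (Fin 3) (Fin 3) ℤ) (v : Fin 3 → ℤ) : ℤ :=
  (Matrix.of ![v, M *ᵥ v, M *ᵥ (M *ᵥ v)]).det

theorem rows_mul (X : Matrix (Fin 3) (Fin 3) ℤ) (u v w : Fin 3 → ℤ) :
    Matrix.of ![X *ᵥ u, X *ᵥ v, X *ᵥ w] = Matrix.of ![u, v, w] * Xᵀ := by
  ext i j
  fin_cases i <;> simp [mul_apply, mulVec, dotProduct, Fin.sum_univ_three, mul_comm]

theorem F_conj (M M' X : Matrix (Fin 3) (Fin 3) ℤ) (h : M' * X = X * M) (v : Fin 3 → ℤ) :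
    F M' (X *ᵥ v) = F M v * X.det := by
  unfold F
  have e1 : M' *ᵥ (X *ᵥ v) = X *ᵥ (M *ᵥ v) := by
    rw [mulVec_mulVec, h, ← mulVec_mulVec]
  have e2 : M' *ᵥ (M' *ᵥ (X *ᵥ v)) = X *ᵥ (M *ᵥ (M *ᵥ v)) := by
    rw [e1, mulVec_mulVec, h, ← mulVec_mulVec]
  rw [e2, e1, rows_mul, det_mul, det_transpose]

/-- The first unit vector. -/
def e₁ : Fin 3 → ℤ := ![1, 0, 0]

theorem mulVec_apply3 (M : Matrix (Fin 3) (Fin 3) ℤ) (v : Fin 3 → ℤ) (i : Fin 3) :
    (M *ᵥ v) i = M i 0 * v 0 + M i 1 * v 1 + M i 2 * v 2 := by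
  simp [mulVec, dotProduct, Fin.sum_univ_three]

theorem F_e (M : Matrix (Fin 3) (Fin 3) ℤ) (h : M 2 0 = 0) : F M e₁ = M 1 0 ^ 2 * M 2 1 := by
  unfold F
  rw [det_fin_three]
  simp only [of_apply, cons_val_zero, cons_val_one, cons_val, mulVec_apply3, e₁, h]
  ring

/-- The theorem of Cayley and Hamilton on a vector. -/
theorem cayley (M : Matrix (Fin 3) (Fin 3) ℤ) (hM : M.det = 1) (v : Fin 3 → ℤ) (i : Fin 3) :
    (M *ᵥ (M *ᵥ (M *ᵥ v))) i = pp M * (M *ᵥ (M *ᵥ v)) i - qq M * (M *ᵥ v) i + v i := by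
  rw [det_fin_three] at hM
  fin_cases i
  · simp only [Fin.zero_eta, mulVec_apply3, pp, qq]
    linear_combination (v 0) * hM
  · simp only [Fin.mk_one, mulVec_apply3, pp, qq]
    linear_combination (v 1) * hM
  · simp only [Fin.reduceFinMk, mulVec_apply3, pp, qq]
    linear_combination (v 2) * hM

/-- The set of coordinate triples (times `s`) of the integer vectors in the basis
`e₁, M e₁, M² e₁`. -/
def LL (M : Matrix (Fin 3) (Fin 3) ℤ) (s a b c : ℤ) : Prop :=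
  ∃ v : Fin 3 → ℤ, ∀ i, s * v i = a * e₁ i + b * (M *ᵥ e₁) i + c * (M *ᵥ (M *ᵥ e₁)) i

theorem mulVec_lin (M : Matrix (Fin 3) (Fin 3) ℤ) {s a b c : ℤ} {v x y z : Fin 3 → ℤ}
    (h : ∀ i, s * v i = a * x i + b * y i + c * z i) (i : Fin 3) :
    s * (M *ᵥ v) i = a * (M *ᵥ x) i + b * (M *ᵥ y) i + c * (M *ᵥ z) i := by
  simp only [mulVec_apply3]
  linear_combination M i 0 * h 0 + M i 1 * h 1 + M i 2 * h 2

theorem mod_LL (M : Matrix (Fin 3) (Fin 3) ℤ) (hM : M.det = 1) (s : ℤ) :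
    Mod (pp M) (qq M) s (LL M s) where
  step a b c := by
    rintro ⟨v, hv⟩
    refine ⟨M *ᵥ v, fun i => ?_⟩
    have h1 := mulVec_lin M hv i
    rw [cayley M hM] at h1
    linear_combination h1
  back a b c := by
    rintro ⟨v, hv⟩
    refine ⟨fun i => (M *ᵥ (M *ᵥ v)) i - pp M * (M *ᵥ v) i + qq M * v i, fun i => ?_⟩
    have h1 := mulVec_lin M hv
    have h2 := mulVec_lin M h1 i
    have h3 := cayley M hM (M *ᵥ e₁) i
    have h1' := h1 i
    rw [cayley M hM e₁] at h1'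
    rw [cayley M hM (M *ᵥ e₁), cayley M hM e₁] at h2
    linear_combination h2 - pp M * h1' + qq M * hv i
  lin k a b c a' b' c' := by
    rintro ⟨v, hv⟩ ⟨w, hw⟩
    refine ⟨fun i => k * v i + w i, fun i => ?_⟩
    linear_combination k * hv i + hw i
  dvd a := by
    rintro ⟨v, hv⟩
    have := hv 0
    simp only [e₁, cons_val_zero, mul_one, zero_mul, add_zero] at this
    exact ⟨v 0, this.symm⟩

theorem F_smul (M : Matrix (Fin 3) (Fin 3) ℤ) (s : ℤ) (v : Fin 3 → ℤ) :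
    F M (s • v) = s ^ 3 * F M v := by
  unfold F
  simp only [mulVec_smul]
  rw [det_fin_three, det_fin_three]
  simp only [of_apply, cons_val_zero, cons_val_one, cons_val, Pi.smul_apply, smul_eq_mul]
  ring

theorem F_comb (M : Matrix (Fin 3) (Fin 3) ℤ) (hM : M.det = 1) (a b c : ℤ) (w : Fin 3 → ℤ)
    (hw : ∀ i, w i = a * e₁ i + b * (M *ᵥ e₁) i + c * (M *ᵥ (M *ᵥ e₁)) i) :
    F M w = nf (pp M) (qq M) a b c * F M e₁ := by
  have hw' : ∀ i, 1 * w i = a * e₁ i + b * (M *ᵥ e₁) i + c * (M *ᵥ (M *ᵥ e₁)) i := by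
    intro i; rw [one_mul]; exact hw i
  have h1 := mulVec_lin M hw'
  have h2 := mulVec_lin M h1
  have k1 : ∀ i, (M *ᵥ w) i = c * e₁ i + (a - qq M * c) * (M *ᵥ e₁) i +
      (b + pp M * c) * (M *ᵥ (M *ᵥ e₁)) i := by
    intro i
    have := h1 i
    rw [cayley M hM e₁] at this
    linear_combination this
  have k2 : ∀ i, (M *ᵥ (M *ᵥ w)) i = (b + pp M * c) * e₁ i +
      (c - qq M * (b + pp M * c)) * (M *ᵥ e₁) i +
      (a - qq M * c + pp M * (b + pp M * c)) * (M *ᵥ (M *ᵥ e₁)) i := by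
    intro i
    have := h2 i
    rw [cayley M hM (M *ᵥ e₁), cayley M hM e₁] at this
    linear_combination this
  have hmat : Matrix.of ![w, M *ᵥ w, M *ᵥ (M *ᵥ w)] =
      !![a, b, c; c, a - qq M * c, b + pp M * c;
        b + pp M * c, c - qq M * (b + pp M * c), a - qq M * c + pp M * (b + pp M * c)] *
      Matrix.of ![e₁, M *ᵥ e₁, M *ᵥ (M *ᵥ e₁)] := by
    ext i j
    fin_cases i
    · simp only [Fin.zero_eta, mul_apply, Fin.sum_univ_three]
      simp only [of_apply, cons_val_zero, cons_val_one, cons_val, hw j]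
    · simp only [Fin.mk_one, mul_apply, Fin.sum_univ_three]
      simp only [of_apply, cons_val_zero, cons_val_one, cons_val, k1 j]
    · simp only [Fin.reduceFinMk, mul_apply, Fin.sum_univ_three]
      simp only [of_apply, cons_val_zero, cons_val_one, cons_val, k2 j]
  unfold F
  rw [hmat, det_mul]
  congr 1
  rw [det_fin_three]
  simp only [of_apply, cons_val', cons_val_zero, cons_val_one, cons_val]
  unfold nf
  ring

theorem exists_coord (M : Matrix (Fin 3) (Fin 3) ℤ) (v : Fin 3 → ℤ) :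
    ∃ a b c : ℤ, ∀ i, F M e₁ * v i = a * e₁ i + b * (M *ᵥ e₁) i + c * (M *ᵥ (M *ᵥ e₁)) i := by
  set E := Matrix.of ![e₁, M *ᵥ e₁, M *ᵥ (M *ᵥ e₁)] with hE
  have h : (v ᵥ* E.adjugate) ᵥ* E = E.det • v := by
    rw [vecMul_vecMul, adjugate_mul, vecMul_smul, vecMul_one]
  refine ⟨(v ᵥ* E.adjugate) 0, (v ᵥ* E.adjugate) 1, (v ᵥ* E.adjugate) 2, fun i => ?_⟩
  have h2 := congrFun h i
  simp only [Pi.smul_apply, smul_eq_mul] at h2
  have h3 : F M e₁ = E.det := rfl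
  rw [h3, ← h2]
  conv_lhs => rw [vecMul, dotProduct, Fin.sum_univ_three]
  rfl

end Pool.Agent.Lib.MP_7c801b_nt
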