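import Mathlib

/-!
The norm form of `a + bξ + cξ²`, where `ξ³ - Pξ² + Qξ - 1 = 0`, and the static estimate:
if `P` is large, `4P - Q² ≥ 1`, the norm is below `s³` and `|a + bξ + cξ²|` lies in
`[sξ, sξ²)`, then `a = 0` and one of `b`, `c` is `0`.
-/

namespace Pool.Agent.Lib.MP_7c801b_nt

/-- The norm of `a + bξ + cξ²`, where `ξ` is a root of `x³ - Px² + Qx - 1`. -/
def nf {R : Type*} [CommRing R] (P Q a b c : R) : R :=
  a ^ 3 + a ^ 2 * b * P + a ^ 2 * c * (P ^ 2 - 2 * Q) + a * b ^ 2 * Q + a * b * c * (P * Q - 3) +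
    a * c ^ 2 * (Q ^ 2 - 2 * P) + b ^ 3 + b ^ 2 * c * P + b * c ^ 2 * Q + c ^ 3

theorem nf_step {R : Type*} [CommRing R] (P Q a b c : R) :
    nf P Q c (a - Q * c) (b + P * c) = nf P Q a b c := by
  unfold nf; ring

theorem nf_back {R : Type*} [CommRing R] (P Q a b c : R) :
    nf P Q (b + Q * a) (c - P * a) a = nf P Q a b c := by
  unfold nf; ring

theorem nf_rev {R : Type*} [CommRing R] (P Q a b c : R) :
    nf Q P a b c = nf P Q c b a := by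
  unfold nf; ring

theorem nf_sqrt {R : Type*} [CommRing R] (k a b c : R) :
    nf (k ^ 2) (-2 * k) (a - k * b) (c - k ^ 2 * b) b = nf k 0 a b c := by
  unfold nf; ring

theorem nf_cast (P Q a b c : ℤ) : ((nf P Q a b c : ℤ) : ℝ) = nf (P : ℝ) Q a b c := by
  unfold nf; push_cast; ring

/-- The factorisation over the real root. -/
theorem nf_eq (ξ t p a b c : ℝ) (h : ξ * p = 1) :
    4 * ξ ^ 2 * nf (ξ + t) (ξ * t + p) a b c = (a + b * ξ + c * ξ ^ 2) *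
      ((2 * a * ξ + ξ * t * (b + c * t) - 2 * c) ^ 2 +
        (4 * ξ - (ξ * t) ^ 2) * (b + c * t) ^ 2) := by
  unfold nf
  linear_combination (4*a*b*c*t*ξ + 4*a*b*c*ξ^2 + 4*a*b^2*ξ + 4*a*c^2 + 4*a*c^2*p*ξ +
    8*a*c^2*t*ξ^2 - 8*a^2*c*ξ + 4*b*c^2*ξ) * h

/-- Auxiliary real form of the static estimate, first part: bounds. -/
theorem static_aux {R t p s P Q : ℝ} (hp : R ^ 2 * p = 1)
    (hP : P = R ^ 2 + t) (hQ : Q = R ^ 2 * t + p) (hs : 1 ≤ s) (hRs : 40 * s ^ 3 ≤ R)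
    (hD : 1 ≤ 4 * P - Q ^ 2) :
    40 ≤ R ∧ 40 * s ≤ R ∧ 0 < p ∧ p ≤ 1 / 1600 ∧ |R ^ 2 * t| ≤ 2 * R + 1 ∧
      1 / 2 ≤ 4 * R ^ 2 - (R ^ 2 * t) ^ 2 := by
  have hs3 : s ≤ s ^ 3 := by nlinarith [sq_nonneg (s - 1), sq_nonneg s]
  have hR : 40 ≤ R := by nlinarith
  have hR2 : 1600 ≤ R ^ 2 := by nlinarith
  have hp0 : 0 < p := by
    by_contra h
    push Not at h
    nlinarith
  have hp1 : p ≤ 1 / 1600 := by nlinarith
  set y := R ^ 2 * t with hy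
  have hty : t = y * p := by
    rw [hy]; linear_combination (-t) * hp
  have h1 : (y - p) ^ 2 ≤ 4 * R ^ 2 - 1 := by
    have : (y - p) ^ 2 = 4 * R ^ 2 - (4 * P - Q ^ 2) := by
      rw [hP, hQ, hty]; ring
    linarith
  have h2 : |y - p| ≤ 2 * R := abs_le_of_sq_le_sq (by nlinarith) (by linarith)
  have h3 : |y| ≤ 2 * R + 1 := by
    rw [abs_le] at h2 ⊢
    constructor <;> linarith [h2.1, h2.2]
  refine ⟨hR, by linarith, hp0, hp1, h3, ?_⟩
  have h4 : 2 * y * p ≤ 1 / 2 := by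
    have h5 : y * p ≤ (2 * R + 1) * p := by
      apply mul_le_mul_of_nonneg_right _ hp0.le
      exact (abs_le.mp h3).2
    have h6 : R * p ≤ 1 / 40 := by
      have : R * (R * p) = 1 := by linear_combination hp
      nlinarith [mul_pos (by linarith : (0:ℝ) < R) hp0]
    nlinarith
  nlinarith

theorem tri (x y z : ℝ) : |x - y - z| ≤ |x| + |y| + |z| :=
  (abs_sub _ _).trans (by linarith [abs_sub x y])

/-- The static estimate, real form of the bound on `c`. -/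
theorem c_bound {R y s c α W u : ℝ} (hs : 1 ≤ s) (hR : 40 ≤ R)
    (hy : |y| ≤ 2 * R + 1)
    (hid : 2 * c * (R ^ 6 - R ^ 2 * y + 1) = 2 * R ^ 2 * α - W - u * (2 * R ^ 4 - y))
    (hu : |u| < 3 * R * s) (hW : |W| < 2 * R * s) (hα : |α| < s * R ^ 4) : |c| < 2 * s := by
  by_contra hc
  push Not at hc
  have hR0 : 0 < R := by linarith
  have h1 : 0 ≤ R ^ 6 - R ^ 2 * (2 * R + 1) := by
    have : R ^ 2 * (2 * R + 1) ≤ R ^ 2 * R ^ 4 := by
      apply mul_le_mul_of_nonneg_left _ (by positivity)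
      nlinarith [pow_pos hR0 2, pow_pos hR0 3]
    nlinarith
  have h2 : R ^ 6 - R ^ 2 * (2 * R + 1) ≤ R ^ 6 - R ^ 2 * y + 1 := by
    have : R ^ 2 * y ≤ R ^ 2 * (2 * R + 1) :=
      mul_le_mul_of_nonneg_left (le_trans (le_abs_self y) hy) (by positivity)
    linarith
  have h3 : 4 * s * (R ^ 6 - R ^ 2 * (2 * R + 1)) ≤ |2 * c * (R ^ 6 - R ^ 2 * y + 1)| := by
    rw [abs_mul, abs_mul, abs_of_nonneg (h1.trans h2), abs_of_pos (by norm_num : (0:ℝ) < 2)]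
    calc 4 * s * (R ^ 6 - R ^ 2 * (2 * R + 1)) ≤ 2 * |c| * (R ^ 6 - R ^ 2 * (2 * R + 1)) := by
          apply mul_le_mul_of_nonneg_right _ h1
          linarith
      _ ≤ 2 * |c| * (R ^ 6 - R ^ 2 * y + 1) := by
          apply mul_le_mul_of_nonneg_left h2 (by positivity)
  have h4 : |2 * R ^ 4 - y| ≤ 2 * R ^ 4 + (2 * R + 1) := by
    refine (abs_sub _ _).trans ?_
    rw [abs_of_pos (by positivity : (0:ℝ) < 2 * R ^ 4)]
    linarith
  have h5 : |2 * R ^ 2 * α - W - u * (2 * R ^ 4 - y)| ≤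
      2 * R ^ 2 * (s * R ^ 4) + 2 * R * s + 3 * R * s * (2 * R ^ 4 + (2 * R + 1)) := by
    refine (tri _ _ _).trans ?_
    rw [abs_mul, abs_mul u, abs_of_pos (by positivity : (0:ℝ) < 2 * R ^ 2)]
    have e1 : 2 * R ^ 2 * |α| ≤ 2 * R ^ 2 * (s * R ^ 4) :=
      mul_le_mul_of_nonneg_left hα.le (by positivity)
    have e2 : |u| * |2 * R ^ 4 - y| ≤ 3 * R * s * (2 * R ^ 4 + (2 * R + 1)) :=
      mul_le_mul hu.le h4 (abs_nonneg _) (by positivity)
    linarith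
  rw [hid] at h3
  have h6 := h3.trans h5
  have h7 : s * (4 * (R ^ 6 - R ^ 2 * (2 * R + 1))) ≤
      s * (2 * R ^ 6 + 2 * R + 3 * R * (2 * R ^ 4 + (2 * R + 1))) := by
    nlinarith [h6]
  have h8 := le_of_mul_le_mul_left h7 (by linarith)
  have h9 : 40 * R ^ 5 ≤ R ^ 6 := by nlinarith [pow_pos hR0 5]
  have h10 : 1600 * R ^ 3 ≤ R ^ 5 := by nlinarith [pow_pos hR0 3, mul_pos hR0 hR0, mul_self_nonneg (R - 40)]
  have h11 : 40 * R ^ 2 ≤ R ^ 3 := by nlinarith [pow_pos hR0 2]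
  have h12 : 40 * R ≤ R ^ 2 := by nlinarith
  nlinarith

/-- `|α|` is large: then `|a| < 1`. -/
theorem a_small_of_large {R y s a c X W u S : ℝ} (hs : 1 ≤ s) (hR : 40 ≤ R) (hRs : 40 * s ≤ R)
    (hy : |y| ≤ 2 * R + 1) (hWS : W ^ 2 ≤ S) (huS : u ^ 2 / 2 ≤ S)
    (hW : W = 2 * a * R ^ 2 + y * u - 2 * c) (hc : |c| < 2 * s)
    (hXS : X * S < 4 * R ^ 4 * s ^ 3) (hX : 16 * s ^ 3 * R ^ 2 ≤ X) : |a| < 1 := by
  have hR0 : 0 < R := by linarith
  have hS0 : 0 ≤ S := le_trans (sq_nonneg W) hWS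
  have hs3 : 0 < s ^ 3 := by positivity
  have h1 : S < R ^ 2 / 4 := by
    by_contra h
    push Not at h
    have h2 : 16 * s ^ 3 * R ^ 2 * (R ^ 2 / 4) ≤ X * S :=
      mul_le_mul hX h (by positivity) (le_trans (by positivity) hX)
    nlinarith
  have h2 : |W| ≤ R / 2 := abs_le_of_sq_le_sq (by nlinarith) (by linarith)
  have h3 : |u| ≤ 3 / 4 * R := abs_le_of_sq_le_sq (by nlinarith) (by linarith)
  have h4 : |y * u| ≤ (2 * R + 1) * (3 / 4 * R) := by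
    rw [abs_mul]
    exact mul_le_mul hy h3 (abs_nonneg _) (by linarith)
  have h5 : 2 * a * R ^ 2 = W - y * u + 2 * c := by linarith
  have h6 : 2 * |a| * R ^ 2 ≤ R / 2 + (2 * R + 1) * (3 / 4 * R) + 4 * s := by
    have : 2 * |a| * R ^ 2 = |2 * a * R ^ 2| := by
      rw [abs_mul, abs_mul, abs_of_pos (by norm_num : (0:ℝ) < 2), abs_of_pos (by positivity : 0 < R ^ 2)]
    rw [this, h5]
    have e1 := abs_add_le (W - y * u) (2 * c)
    have e2 := abs_sub W (y * u)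
    have e3 : |2 * c| = 2 * |c| := by rw [abs_mul, abs_of_pos (by norm_num : (0:ℝ) < 2)]
    linarith
  by_contra h
  push Not at h
  nlinarith

/-- `|α|` is small: then `|c| < 1`. -/
theorem c_small_of_small {R y s c α W u : ℝ} (hs : 1 ≤ s) (hR : 40 ≤ R)
    (hRs3 : 40 * s ^ 3 ≤ R) (hRs : 40 * s ≤ R) (hy : |y| ≤ 2 * R + 1)
    (hid : 2 * c * (R ^ 6 - R ^ 2 * y + 1) = 2 * R ^ 2 * α - W - u * (2 * R ^ 4 - y))
    (hu : |u| < 3 * R * s) (hW : |W| < 2 * R * s) (hα : |α| ≤ 16 * s ^ 3 * R ^ 2) : |c| < 1 := by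
  by_contra hc
  push Not at hc
  have hR0 : 0 < R := by linarith
  have h1 : 0 ≤ R ^ 6 - R ^ 2 * (2 * R + 1) := by
    have : R ^ 2 * (2 * R + 1) ≤ R ^ 2 * R ^ 4 := by
      apply mul_le_mul_of_nonneg_left _ (by positivity)
      nlinarith [pow_pos hR0 2, pow_pos hR0 3]
    nlinarith
  have h2 : R ^ 6 - R ^ 2 * (2 * R + 1) ≤ R ^ 6 - R ^ 2 * y + 1 := by
    have : R ^ 2 * y ≤ R ^ 2 * (2 * R + 1) :=
      mul_le_mul_of_nonneg_left (le_trans (le_abs_self y) hy) (by positivity)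
    linarith
  have h3 : 2 * (R ^ 6 - R ^ 2 * (2 * R + 1)) ≤ |2 * c * (R ^ 6 - R ^ 2 * y + 1)| := by
    rw [abs_mul, abs_mul, abs_of_nonneg (h1.trans h2), abs_of_pos (by norm_num : (0:ℝ) < 2)]
    calc 2 * (R ^ 6 - R ^ 2 * (2 * R + 1)) ≤ 2 * |c| * (R ^ 6 - R ^ 2 * (2 * R + 1)) := by
          apply mul_le_mul_of_nonneg_right _ h1
          linarith
      _ ≤ 2 * |c| * (R ^ 6 - R ^ 2 * y + 1) := by
          apply mul_le_mul_of_nonneg_left h2 (by positivity)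
  have h4 : |2 * R ^ 4 - y| ≤ 2 * R ^ 4 + (2 * R + 1) := by
    refine (abs_sub _ _).trans ?_
    rw [abs_of_pos (by positivity : (0:ℝ) < 2 * R ^ 4)]
    linarith
  have h5 : |2 * R ^ 2 * α - W - u * (2 * R ^ 4 - y)| ≤
      2 * R ^ 2 * (16 * s ^ 3 * R ^ 2) + 2 * R * s + 3 * R * s * (2 * R ^ 4 + (2 * R + 1)) := by
    refine (tri _ _ _).trans ?_
    rw [abs_mul, abs_mul u, abs_of_pos (by positivity : (0:ℝ) < 2 * R ^ 2)]
    have e1 : 2 * R ^ 2 * |α| ≤ 2 * R ^ 2 * (16 * s ^ 3 * R ^ 2) :=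
      mul_le_mul_of_nonneg_left hα (by positivity)
    have e2 : |u| * |2 * R ^ 4 - y| ≤ 3 * R * s * (2 * R ^ 4 + (2 * R + 1)) :=
      mul_le_mul hu.le h4 (abs_nonneg _) (by positivity)
    linarith
  rw [hid] at h3
  have h6 := h3.trans h5
  have f1 : 2 * R ^ 2 * (16 * s ^ 3 * R ^ 2) ≤ 4 / 5 * R ^ 5 := by
    nlinarith [pow_pos hR0 4]
  have f2 : 2 * R * s ≤ R ^ 2 / 20 := by nlinarith
  have f3 : 3 * R * s * (2 * R ^ 4 + (2 * R + 1)) ≤ 3 / 40 * R ^ 2 * (2 * R ^ 4 + (2 * R + 1)) := by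
    apply mul_le_mul_of_nonneg_right _ (by positivity)
    nlinarith
  have h9 : 40 * R ^ 5 ≤ R ^ 6 := by nlinarith [pow_pos hR0 5]
  have h10 : 1600 * R ^ 3 ≤ R ^ 5 := by nlinarith [pow_pos hR0 3, mul_pos hR0 hR0, mul_self_nonneg (R - 40)]
  have h11 : 40 * R ^ 2 ≤ R ^ 3 := by nlinarith [pow_pos hR0 2]
  nlinarith

/-- `c = 0` and `|α|` is small: then `|a| < 1`. -/
theorem a_small_of_c_zero {R y s a b W α : ℝ} (hs : 1 ≤ s) (hR : 40 ≤ R)
    (hRs3 : 40 * s ^ 3 ≤ R) (hRs : 40 * s ≤ R) (hy : |y| ≤ 2 * R + 1)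
    (hW : W = 2 * a * R ^ 2 + y * b) (hα : α = a + b * R ^ 2)
    (hWb : |W| < 2 * R * s) (hX : |α| ≤ 16 * s ^ 3 * R ^ 2) : |a| < 1 := by
  have hR0 : 0 < R := by linarith
  have hid : b * (2 * R ^ 4 - y) = 2 * R ^ 2 * α - W := by
    rw [hα, hW]; ring
  have h1 : 2 * R ^ 4 - (2 * R + 1) ≤ 2 * R ^ 4 - y := by linarith [(abs_le.mp hy).2]
  have h0 : 0 ≤ 2 * R ^ 4 - (2 * R + 1) := by nlinarith [pow_pos hR0 2, pow_pos hR0 3]
  have h2 : |b| * (2 * R ^ 4 - (2 * R + 1)) ≤ 32 * s ^ 3 * R ^ 4 + 2 * R * s := by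
    calc |b| * (2 * R ^ 4 - (2 * R + 1)) ≤ |b| * (2 * R ^ 4 - y) :=
          mul_le_mul_of_nonneg_left h1 (abs_nonneg _)
      _ = |b * (2 * R ^ 4 - y)| := by rw [abs_mul, abs_of_nonneg (h0.trans h1)]
      _ ≤ |2 * R ^ 2 * α| + |W| := by rw [hid]; exact abs_sub _ _
      _ ≤ 32 * s ^ 3 * R ^ 4 + 2 * R * s := by
          rw [abs_mul, abs_of_pos (by positivity : (0:ℝ) < 2 * R ^ 2)]
          nlinarith [mul_le_mul_of_nonneg_left hX (by positivity : (0:ℝ) ≤ 2 * R ^ 2)]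
  have h3 : |b| ≤ 2 / 5 * R + 1 := by
    by_contra h
    push Not at h
    have h4 : (2 / 5 * R + 1) * (2 * R ^ 4 - (2 * R + 1)) ≤ 32 * s ^ 3 * R ^ 4 + 2 * R * s :=
      le_trans (mul_le_mul_of_nonneg_right h.le h0) h2
    have h5 : 32 * s ^ 3 * R ^ 4 ≤ 4 / 5 * R * R ^ 4 := by
      apply mul_le_mul_of_nonneg_right _ (by positivity)
      linarith
    have h6 : 2 * R * s ≤ R ^ 2 / 20 := by nlinarith
    nlinarith [pow_pos hR0 2, pow_pos hR0 3, pow_pos hR0 4]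
  have h5 : 2 * |a| * R ^ 2 ≤ 2 * R * s + (2 * R + 1) * (2 / 5 * R + 1) := by
    have e : 2 * |a| * R ^ 2 = |W - y * b| := by
      rw [hW]
      rw [show 2 * a * R ^ 2 + y * b - y * b = 2 * a * R ^ 2 by ring, abs_mul, abs_mul,
        abs_of_pos (by norm_num : (0:ℝ) < 2), abs_of_pos (by positivity : 0 < R ^ 2)]
    rw [e]
    have e1 := abs_sub W (y * b)
    have e2 : |y * b| ≤ (2 * R + 1) * (2 / 5 * R + 1) := by
      rw [abs_mul]
      exact mul_le_mul hy h3 (abs_nonneg _) (by linarith)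
    linarith
  by_contra h
  push Not at h
  have h6 : 2 * R * s ≤ R ^ 2 / 20 := by nlinarith
  nlinarith

/-- The last step: `a = 0`, then `b` or `c` vanishes. -/
theorem bc_zero {R t y s b c P Q : ℝ} (hs : 1 ≤ s) (hR : 40 ≤ R) (hRs3 : 40 * s ^ 3 ≤ R)
    (hRs : 40 * s ≤ R) (hy : |y| ≤ 2 * R + 1) (hyt : y = R ^ 2 * t)
    (hP : P = R ^ 2 + t) (hQb : |Q| ≤ 2 * R + 2)
    (hu : |b + c * t| < 3 * R * s) (hc : |c| < 2 * s) (hc1 : 1 ≤ |c|) (hb1 : 1 ≤ |b|)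
    (hN : |b ^ 3 + b ^ 2 * c * P + b * c ^ 2 * Q + c ^ 3| < s ^ 3) : False := by
  have hR0 : 0 < R := by linarith
  have ht : |t| ≤ 1 := by
    have h1 : R ^ 2 * |t| ≤ 2 * R + 1 := by
      rw [hyt, abs_mul, abs_of_pos (by positivity : 0 < R ^ 2)] at hy
      exact hy
    by_contra h
    push Not at h
    nlinarith
  have hb : |b| ≤ 4 * R * s := by
    have e1 : |b| ≤ |b + c * t| + |c * t| := by
      have := abs_sub (b + c * t) (c * t)
      rwa [show b + c * t - c * t = b by ring] at this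
    have e2 : |c * t| ≤ 2 * s := by
      rw [abs_mul]
      nlinarith [abs_nonneg c, abs_nonneg t]
    nlinarith
  have hP1 : R ^ 2 - 1 ≤ |P| := by
    have := le_abs_self P
    have h2 := (abs_le.mp ht).1
    rw [hP] at this ⊢
    linarith
  set β := |b| with hβ
  set γ := |c| with hγ
  have key : β ^ 2 * γ * |P| ≤ s ^ 3 + β ^ 3 + β * γ ^ 2 * |Q| + γ ^ 3 := by
    have e0 : b ^ 2 * c * P = (b ^ 3 + b ^ 2 * c * P + b * c ^ 2 * Q + c ^ 3) - b ^ 3 -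
        (b * c ^ 2 * Q + c ^ 3) := by ring
    have e1 := tri (b ^ 3 + b ^ 2 * c * P + b * c ^ 2 * Q + c ^ 3) (b ^ 3) (b * c ^ 2 * Q + c ^ 3)
    rw [← e0] at e1
    have e2 := abs_add_le (b * c ^ 2 * Q) (c ^ 3)
    have e3 : |b ^ 2 * c * P| = β ^ 2 * γ * |P| := by
      rw [abs_mul, abs_mul, abs_pow]
    have e4 : |b * c ^ 2 * Q| = β * γ ^ 2 * |Q| := by
      rw [abs_mul, abs_mul, abs_pow]
    have e5 : |b ^ 3| = β ^ 3 := abs_pow _ _
    have e6 : |c ^ 3| = γ ^ 3 := abs_pow _ _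
    rw [e3, e5] at e1
    rw [e4, e6] at e2
    linarith
  have hβ0 : 0 ≤ β := by linarith
  have hγ0 : 0 ≤ γ := by linarith
  have hm : 1 ≤ β ^ 2 * γ := by nlinarith
  have b1 : β ^ 3 ≤ β ^ 2 * γ * (4 * R * s) := by
    calc β ^ 3 = β ^ 2 * β := by ring
      _ ≤ β ^ 2 * (4 * R * s) := mul_le_mul_of_nonneg_left hb (by positivity)
      _ = β ^ 2 * 1 * (4 * R * s) := by ring
      _ ≤ β ^ 2 * γ * (4 * R * s) := by
          apply mul_le_mul_of_nonneg_right _ (by positivity)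
          exact mul_le_mul_of_nonneg_left hc1 (by positivity)
  have b2 : β * γ ^ 2 * |Q| ≤ β ^ 2 * γ * (2 * s * (2 * R + 2)) := by
    calc β * γ ^ 2 * |Q| = β * γ * (γ * |Q|) := by ring
      _ ≤ β * γ * (2 * s * (2 * R + 2)) := by
          apply mul_le_mul_of_nonneg_left _ (by positivity)
          exact mul_le_mul hc.le hQb (abs_nonneg _) (by linarith)
      _ ≤ β ^ 2 * γ * (2 * s * (2 * R + 2)) := by
          apply mul_le_mul_of_nonneg_right _ (by positivity)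
          nlinarith [mul_nonneg hβ0 hγ0]
  have b3 : γ ^ 3 ≤ β ^ 2 * γ * (4 * s ^ 2) := by
    calc γ ^ 3 = 1 * γ * γ ^ 2 := by ring
      _ ≤ β ^ 2 * γ * (4 * s ^ 2) := by
          apply mul_le_mul _ (by nlinarith) (by positivity) (by positivity)
          apply mul_le_mul_of_nonneg_right _ hγ0
          nlinarith
  have b4 : s ^ 3 ≤ β ^ 2 * γ * s ^ 3 := by nlinarith [pow_pos (by linarith : (0:ℝ) < s) 3]
  have b5 : β ^ 2 * γ * |P| ≤
      β ^ 2 * γ * (s ^ 3 + 4 * R * s + 2 * s * (2 * R + 2) + 4 * s ^ 2) := by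
    have : β ^ 2 * γ * (s ^ 3 + 4 * R * s + 2 * s * (2 * R + 2) + 4 * s ^ 2) =
      β ^ 2 * γ * s ^ 3 + β ^ 2 * γ * (4 * R * s) + β ^ 2 * γ * (2 * s * (2 * R + 2)) +
      β ^ 2 * γ * (4 * s ^ 2) := by ring
    rw [this]
    linarith
  have b6 := le_of_mul_le_mul_left b5 (by linarith)
  have b7 : R * s ≤ R ^ 2 / 40 := by
    have := mul_le_mul_of_nonneg_left hRs hR0.le
    linarith
  have b8 : 4 * s ^ 2 ≤ R ^ 2 / 400 := by
    have := mul_self_le_mul_self (by linarith : 0 ≤ 40 * s) hRs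
    linarith
  have b9 : 40 * R ≤ R ^ 2 := by
    have := mul_le_mul_of_nonneg_right hR hR0.le
    linarith
  have b10 : 2 * s * (2 * R + 2) = 4 * (R * s) + 4 * s := by ring
  have b11 : 4 * R * s = 4 * (R * s) := by ring
  rw [b10, b11] at b6
  linarith

end Pool.Agent.Lib.MP_7c801b_nt
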